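import Pool.Agent.H85.LK.Targets

/-!
# lk_modules LIN: linear algebra core
-/

set_option autoImplicit false

open Module Finset

namespace Pool.Agent.H71.LK

open Pool.Agent.H85.LK

/-- diagonalisation -/
theorem diag (W : Type) [AddCommGroup W] [Module ℝ W] [FiniteDimensional ℝ W]
    (q : QuadraticForm ℝ W) : ∃ (d : ℕ) (b : Basis (Fin d) ℝ W),
    ∀ x, q x = ∑ i, q (b i) * (b.repr x i * b.repr x i) := by
  classical
  letI : Invertible (2 : ℝ) := invertibleOfNonzero two_ne_zero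
  have hs : (QuadraticMap.associated (R := ℝ) q).IsSymm := ⟨fun x y => QuadraticMap.associated_isSymm ℝ q x y⟩
  obtain ⟨b, hb⟩ := LinearMap.BilinForm.exists_orthogonal_basis hs
  refine ⟨_, b, fun x => ?_⟩
  have h1 := QuadraticMap.basisRepr_eq_of_iIsOrtho q b hb
  have h2 := congrArg (fun Q => Q (fun i => b.repr x i)) h1
  simp only [QuadraticMap.basisRepr_apply, QuadraticMap.weightedSumSquares_apply] at h2
  rw [b.sum_repr x] at h2
  exact h2

/-- the span of a part of the basis -/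
def Pj {W : Type} [AddCommGroup W] [Module ℝ W] {d : ℕ} (b : Basis (Fin d) ℝ W)
    (J : Finset (Fin d)) : Submodule ℝ W := Submodule.span ℝ (Set.range fun j : J => b j)

theorem finrank_Pj {W : Type} [AddCommGroup W] [Module ℝ W] {d : ℕ} (b : Basis (Fin d) ℝ W)
    (J : Finset (Fin d)) : finrank ℝ (Pj b J) = J.card := by
  have h := finrank_span_eq_card (b := fun j : J => b j)
    (b.linearIndependent.comp (fun j : J => (j : Fin d)) Subtype.val_injective)
  rw [Fintype.card_coe] at h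
  exact h

theorem nonneg_Pj {W : Type} [AddCommGroup W] [Module ℝ W] {d : ℕ} (b : Basis (Fin d) ℝ W)
    (q : QuadraticForm ℝ W) (hq : ∀ x, q x = ∑ i, q (b i) * (b.repr x i * b.repr x i))
    (J : Finset (Fin d)) (hJ : ∀ i ∈ J, 0 ≤ q (b i)) : ∀ v ∈ Pj b J, 0 ≤ q v := by
  intro v hv
  have h1 : v ∈ Submodule.span ℝ (b '' (J : Set (Fin d))) := by
    rw [Set.image_eq_range]
    exact hv
  rw [Basis.mem_span_image] at h1
  rw [hq]
  refine Finset.sum_nonneg fun i _ => ?_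
  by_cases hi : i ∈ J
  · exact mul_nonneg (hJ i hi) (mul_self_nonneg _)
  · have : b.repr v i = 0 := by
      by_contra h
      exact hi (h1 (Finsupp.mem_support_iff.2 h))
    rw [this, mul_zero, mul_zero]

/-- if all nonnegative coordinates vanish then the form is negative or the vector is zero -/
theorem neg_part {W : Type} [AddCommGroup W] [Module ℝ W] {d : ℕ} (b : Basis (Fin d) ℝ W)
    (q : QuadraticForm ℝ W) (hq : ∀ x, q x = ∑ i, q (b i) * (b.repr x i * b.repr x i))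
    (x : W) (hx : ∀ i, 0 ≤ q (b i) → b.repr x i = 0) : q x ≤ 0 ∧ (q x = 0 → x = 0) := by
  have hterm : ∀ i ∈ (Finset.univ : Finset (Fin d)), q (b i) * (b.repr x i * b.repr x i) ≤ 0 := by
    intro i _
    by_cases h : 0 ≤ q (b i)
    · rw [hx i h, mul_zero, mul_zero]
    · exact mul_nonpos_of_nonpos_of_nonneg (le_of_not_ge h) (mul_self_nonneg _)
  refine ⟨by rw [hq]; exact Finset.sum_nonpos hterm, fun h0 => ?_⟩
  rw [hq] at h0
  have h1 := (Finset.sum_eq_zero_iff_of_nonpos hterm).1 h0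
  apply b.repr.injective
  rw [map_zero]
  ext i
  rw [Finsupp.zero_apply]
  by_cases h : 0 ≤ q (b i)
  · exact hx i h
  · have h2 := h1 i (Finset.mem_univ i)
    rcases mul_eq_zero.1 h2 with h3 | h3
    · exact absurd h3.ge h
    · exact mul_self_eq_zero.1 h3

theorem pf_LIN : T_LIN := by
  classical
  intro W₁ W₂ _ _ _ _ _ _ q₁ q₂ V hV
  obtain ⟨d₁, b₁, hq₁⟩ := diag W₁ q₁
  obtain ⟨d₂, b₂, hq₂⟩ := diag W₂ q₂
  set I₁ : Finset (Fin d₁) := Finset.univ.filter fun i => 0 ≤ q₁ (b₁ i) with hI₁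
  set I₂ : Finset (Fin d₂) := Finset.univ.filter fun i => 0 ≤ q₂ (b₂ i) with hI₂
  -- the coordinate map
  let L : (W₁ × W₂) →ₗ[ℝ] ((I₁ → ℝ) × (I₂ → ℝ)) :=
    LinearMap.prodMap
      (LinearMap.pi fun i : I₁ => (Finsupp.lapply (i : Fin d₁)) ∘ₗ (b₁.repr : W₁ →ₗ[ℝ] _))
      (LinearMap.pi fun i : I₂ => (Finsupp.lapply (i : Fin d₂)) ∘ₗ (b₂.repr : W₂ →ₗ[ℝ] _))
  have hL1 : ∀ (x : W₁ × W₂) (i : I₁), (L x).1 i = b₁.repr x.1 i := fun x i => rfl
  have hL2 : ∀ (x : W₁ × W₂) (i : I₂), (L x).2 i = b₂.repr x.2 i := fun x i => rfl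
  have hinj : Function.Injective (L.domRestrict V) := by
    rw [← LinearMap.ker_eq_bot, LinearMap.ker_eq_bot']
    intro v hv
    have hv' : L v = 0 := hv
    have h1 := neg_part b₁ q₁ hq₁ (v : W₁ × W₂).1 fun i hi => by
      rw [← hL1 v ⟨i, by rw [hI₁, Finset.mem_filter]; exact ⟨Finset.mem_univ _, hi⟩⟩, hv']
      rfl
    have h2 := neg_part b₂ q₂ hq₂ (v : W₁ × W₂).2 fun i hi => by
      rw [← hL2 v ⟨i, by rw [hI₂, Finset.mem_filter]; exact ⟨Finset.mem_univ _, hi⟩⟩, hv']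
      rfl
    have h3 := hV v v.2
    have e1 : q₁ (v : W₁ × W₂).1 = 0 := le_antisymm h1.1 (by linarith [h2.1])
    have e2 : q₂ (v : W₁ × W₂).2 = 0 := le_antisymm h2.1 (by linarith [h1.1])
    apply Subtype.ext
    exact Prod.ext (h1.2 e1) (h2.2 e2)
  have hdim : finrank ℝ V ≤ I₁.card + I₂.card := by
    have h := LinearMap.finrank_le_finrank_of_injective hinj
    rw [Module.finrank_prod, Module.finrank_fintype_fun_eq_card,
      Module.finrank_fintype_fun_eq_card, Fintype.card_coe, Fintype.card_coe] at h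
    exact h
  -- choose the parts
  obtain ⟨J₁, hJ₁, hc₁⟩ := Finset.exists_subset_card_eq
    (show min (finrank ℝ V) I₁.card ≤ I₁.card from min_le_right _ _)
  obtain ⟨J₂, hJ₂, hc₂⟩ := Finset.exists_subset_card_eq
    (show finrank ℝ V - min (finrank ℝ V) I₁.card ≤ I₂.card by omega)
  refine ⟨Pj b₁ J₁, Pj b₂ J₂, nonneg_Pj b₁ q₁ hq₁ J₁ fun i hi => ?_,
    nonneg_Pj b₂ q₂ hq₂ J₂ fun i hi => ?_, ?_⟩
  · exact (Finset.mem_filter.1 (hJ₁ hi)).2
  · exact (Finset.mem_filter.1 (hJ₂ hi)).2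
  · rw [finrank_Pj, finrank_Pj, hc₁, hc₂]
    omega

end Pool.Agent.H71.LK
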