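import Pool.Agent.H85.LK.Targets

/-!
# lk_modules NUM: numerical inequality
-/

set_option autoImplicit false

namespace Pool.Agent.H71.LK

open Pool.Agent.H85.LK

theorem pf_NUM : T_NUM := by
  intro n b μ hn hb h48 hμ1 hμ2
  have hn0 : (0 : ℝ) < n := by exact_mod_cast (by omega : 0 < n)
  have hn1 : (1 : ℝ) < n := by exact_mod_cast (by omega : 1 < n)
  have hL : 0 < Real.log n := Real.log_pos hn1
  have hb0 : 0 < b := by rw [hb]; exact Real.sqrt_pos.2 hL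
  have hb2 : b ^ 2 = Real.log n := by rw [hb]; exact Real.sq_sqrt hL.le
  set s : ℝ := b ^ ((2 / 3) : ℝ) with hs
  have hs0 : 0 < s := Real.rpow_pos_of_pos hb0 _
  have hs3 : s ^ 3 = b ^ 2 := by
    rw [hs, ← Real.rpow_natCast (b ^ ((2 / 3) : ℝ)) 3, ← Real.rpow_mul hb0.le,
      ← Real.rpow_natCast b 2]
    norm_num
  have hx : Real.log n ^ (-(2 / 3) : ℝ) = (s ^ 2)⁻¹ := by
    rw [← hb2, Real.rpow_neg (by positivity), ← Real.rpow_natCast b 2, ← Real.rpow_mul hb0.le,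
      hs, ← Real.rpow_natCast (b ^ ((2 / 3) : ℝ)) 2, ← Real.rpow_mul hb0.le]
    congr 2
    norm_num
  rw [hx] at h48 ⊢
  have hs2 : 48 ≤ s ^ 2 := by
    have h1 : 0 < s ^ 2 := by positivity
    rw [← div_eq_mul_inv, div_le_one h1] at h48
    exact h48
  have hs1 : 1 ≤ s := by nlinarith
  have hb18 : 18 ≤ b := by
    by_contra h
    push Not at h
    have h1 : s ^ 6 < 48 ^ 3 := by
      have e1 : s ^ 6 = (b ^ 2) ^ 2 := by rw [← hs3]; ring
      rw [e1]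
      have : b ^ 2 < 324 := by nlinarith
      nlinarith [sq_nonneg b]
    have h2 : (48 : ℝ) ^ 3 ≤ s ^ 6 := by
      have : s ^ 6 = (s ^ 2) ^ 3 := by ring
      rw [this]
      exact pow_le_pow_left₀ (by norm_num) hs2 3
    linarith
  have hl : b ^ (-(1 / 3) : ℝ) ≤ 1 :=
    Real.rpow_le_one_of_one_le_of_nonpos (by linarith) (by norm_num)
  have hl0 : 0 < b ^ (-(1 / 3) : ℝ) := Real.rpow_pos_of_pos hb0 _
  -- the second term
  have hexp : (b + b ^ (-(1 / 3) : ℝ)) ^ 4 / n ≤ Real.exp (1 - b ^ 2 / 2) := by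
    rw [div_le_iff₀ hn0]
    have e1 : Real.exp (1 - b ^ 2 / 2) * n = Real.exp (1 + b ^ 2 / 2) := by
      have e0 : (n : ℝ) = Real.exp (b ^ 2) := by rw [hb2, Real.exp_log hn0]
      rw [e0, ← Real.exp_add]
      congr 1
      ring
    rw [e1]
    have e2 : (b + b ^ (-(1 / 3) : ℝ)) ^ 4 ≤ (2 * b) ^ 4 :=
      pow_le_pow_left₀ (by positivity) (by linarith) 4
    have e3 : (b ^ 2 / 2) ^ 4 / (Nat.factorial 4 : ℝ) ≤ Real.exp (b ^ 2 / 2) :=
      Real.pow_div_factorial_le_exp (b ^ 2 / 2) (by positivity) 4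
    have e4 : (2 * b) ^ 4 ≤ (b ^ 2 / 2) ^ 4 / (Nat.factorial 4 : ℝ) := by
      have f1 : (Nat.factorial 4 : ℝ) = 24 := by norm_num [Nat.factorial]
      rw [f1, le_div_iff₀ (by norm_num)]
      have f2 : (324 : ℝ) ≤ b ^ 2 := by nlinarith
      have f3 : (324 : ℝ) ^ 2 ≤ (b ^ 2) ^ 2 := pow_le_pow_left₀ (by norm_num) f2 2
      have f4 : (0 : ℝ) ≤ (b ^ 2) ^ 2 := by positivity
      nlinarith
    have e5 : Real.exp (b ^ 2 / 2) ≤ Real.exp (1 + b ^ 2 / 2) :=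
      Real.exp_le_exp.2 (by linarith)
    linarith
  have hm0 : 0 < Real.exp (1 - b ^ 2 / 2) + (b + b ^ (-(1 / 3) : ℝ)) ^ 4 / n := by positivity
  have hlog : b ^ 2 / 2 - 2 ≤
      Real.log (1 / (Real.exp (1 - b ^ 2 / 2) + (b + b ^ (-(1 / 3) : ℝ)) ^ 4 / n)) := by
    rw [one_div, Real.log_inv]
    have f1 : Real.log (Real.exp (1 - b ^ 2 / 2) + (b + b ^ (-(1 / 3) : ℝ)) ^ 4 / n) ≤
        Real.log (2 * Real.exp (1 - b ^ 2 / 2)) :=
      Real.log_le_log hm0 (by linarith)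
    rw [Real.log_mul two_ne_zero (Real.exp_ne_zero _), Real.log_exp] at f1
    have f2 : Real.log 2 < 1 := by
      have := Real.log_two_lt_d9
      linarith
    linarith
  have hμ0 : 0 < μ := by linarith
  rw [one_div_mul_eq_div, le_div_iff₀ hμ0]
  refine le_trans ?_ hlog
  have hc : 0 ≤ 1 - 48 * (s ^ 2)⁻¹ := by linarith
  have h6 : 2 * (1 - 48 * (s ^ 2)⁻¹) * μ ≤ 2 * (1 - 48 * (s ^ 2)⁻¹) * (b ^ 2 / 4 + 11 * s) :=
    mul_le_mul_of_nonneg_left hμ2 (by linarith)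
  refine h6.trans ?_
  rw [← hs3]
  have e7 : 2 * (1 - 48 * (s ^ 2)⁻¹) * (s ^ 3 / 4 + 11 * s) = s ^ 3 / 2 - 2 * s - 1056 * s⁻¹ := by
    field_simp
    ring
  rw [e7]
  have : 0 < s⁻¹ := inv_pos.2 hs0
  linarith

end Pool.Agent.H71.LK
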